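import Pool.Agent.H441Z.DCS.Final

set_option autoImplicit false

namespace Pool.Agent.Results.MP_14a7d6_lc.ATwoPowN

open Pool.Agent.NPC Pool.Agent.H441Z.DCS Turing

/-- Disjoint Connected Subgraphs is decided by a deterministic Turing machine in time
`2 ^ n * poly(n)` on all instances. -/
theorem result : ∃ (M : TM2ComputableAux Bool Bool) (p : Polynomial ℕ),
    ∀ (n k : ℕ) (G : SimpleGraph (Fin n)) (Z : Fin k → Finset (Fin n)),
      (∀ i, (Z i).Nonempty) → (Pairwise fun i j => Disjoint (Z i) (Z j)) →
      ∃ b : Bool,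
        (b = true ↔ ∃ D : Fin k → G.Subgraph,
          (∀ i, (D i).Connected ∧ (Z i : Set (Fin n)) ⊆ (D i).verts) ∧
            Pairwise fun i j => Disjoint (D i).verts (D j).verts) ∧
        Nonempty (TM2OutputsInTime M.tm ((bits (adjM G, chiL Z)).map M.inputAlphabet.invFun)
          (some ([b].map M.outputAlphabet.invFun)) (2 ^ n * p.eval n)) :=
  main

end Pool.Agent.Results.MP_14a7d6_lc.ATwoPowN
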